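import Pool.Agent.Helper44.GH.Stmts

/-!
# Module GAM: values of the Gamma function (MP_d210aa_gt)
-/

open Finset MeasureTheory Filter Topology

namespace Pool.Agent.Helper44.GH

open Pool.Agent.Helper44.GF Pool.Agent.Helper44.GN

theorem gam_rec (n : ℕ) : Real.Gamma (7 / 3 + n)
    = (((∏ i ∈ range n, (3 * i + 7) : ℕ) : ℝ) / 3 ^ n) * Real.Gamma (7 / 3) := by
  induction n with
  | zero => simp
  | succ n ih =>
    have h1 : (7 / 3 + ((n + 1 : ℕ) : ℝ)) = (7 / 3 + (n : ℝ)) + 1 := by push_cast; ring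
    have h2 : (7 / 3 + (n : ℝ)) ≠ 0 := by positivity
    rw [h1, Real.Gamma_add_one h2, ih, prod_range_succ]
    push_cast
    field_simp
    ring

theorem gam_prod : (∏ i ∈ range 62, (3 * i + 7) : ℕ)
    = 2536762709755427335677384266258277726236666679784411332190884849283965863602271721917463143824029122560000000000000000 := by
  decide +kernel

theorem gam_63 : Real.Gamma 64 = ((Nat.factorial 63 : ℕ) : ℝ) := by
  have h := Real.Gamma_nat_eq_factorial 63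
  rw [← h]
  norm_num

theorem gam_64 : Real.Gamma 65 = 64 * ((Nat.factorial 63 : ℕ) : ℝ) := by
  have h := Real.Gamma_nat_eq_factorial 64
  have h2 : (65 : ℝ) = ((64 : ℕ) : ℝ) + 1 := by norm_num
  rw [h2, h, Nat.factorial_succ]
  push_cast
  ring

theorem gam_up : Real.Gamma (7 / 3 + (62 : ℕ)) ≤ 4 * ((Nat.factorial 63 : ℕ) : ℝ) := by
  have h := Real.Gamma_mul_add_mul_le_rpow_Gamma_mul_rpow_Gamma (s := 64) (t := 65) (a := 2 / 3)
    (b := 1 / 3) (by norm_num) (by norm_num) (by norm_num) (by norm_num) (by norm_num)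
  have h1 : (2 / 3 * 64 + 1 / 3 * 65 : ℝ) = 7 / 3 + (62 : ℕ) := by norm_num
  rw [h1, gam_63, gam_64] at h
  refine le_trans h ?_
  set F : ℝ := ((Nat.factorial 63 : ℕ) : ℝ) with hF
  have hF0 : 0 < F := by
    rw [hF]
    exact_mod_cast Nat.factorial_pos 63
  have h2 : (64 : ℝ) ^ (1 / 3 : ℝ) = 4 := by
    have : (64 : ℝ) = 4 ^ (3 : ℝ) := by norm_num
    rw [this, ← Real.rpow_mul (by norm_num)]
    norm_num
  rw [Real.mul_rpow (by norm_num) hF0.le, h2]
  have h3 : F ^ (2 / 3 : ℝ) * (4 * F ^ (1 / 3 : ℝ)) = 4 * (F ^ (2 / 3 : ℝ) * F ^ (1 / 3 : ℝ)) := by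
    ring
  rw [h3, ← Real.rpow_add hF0]
  norm_num

theorem gam_low : 64 * ((Nat.factorial 63 : ℕ) : ℝ)
    ≤ 1606 / 100 * Real.Gamma (7 / 3 + (62 : ℕ)) := by
  have h := Real.Gamma_mul_add_mul_le_rpow_Gamma_mul_rpow_Gamma (s := 7 / 3 + (62 : ℕ))
    (t := 7 / 3 + (62 : ℕ) + 1) (a := 1 / 3) (b := 2 / 3) (by positivity) (by positivity)
    (by norm_num) (by norm_num) (by norm_num)
  have h1 : (1 / 3 * (7 / 3 + (62 : ℕ)) + 2 / 3 * (7 / 3 + (62 : ℕ) + 1) : ℝ) = 65 := by norm_num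
  rw [h1, gam_64, Real.Gamma_add_one (by positivity)] at h
  refine le_trans h ?_
  set G : ℝ := Real.Gamma (7 / 3 + (62 : ℕ)) with hG
  have hG0 : 0 < G := Real.Gamma_pos_of_pos (by positivity)
  rw [Real.mul_rpow (by positivity) hG0.le]
  have h2 : (7 / 3 + ((62 : ℕ) : ℝ)) ^ (2 / 3 : ℝ) ≤ 1606 / 100 := by
    have h4 : (1606 / 100 : ℝ) = ((1606 / 100) ^ (3 / 2 : ℝ)) ^ (2 / 3 : ℝ) := by
      rw [← Real.rpow_mul (by norm_num)]
      norm_num
    rw [h4]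
    refine Real.rpow_le_rpow (by positivity) ?_ (by norm_num)
    have h5 : (1606 / 100 : ℝ) ^ (3 / 2 : ℝ) = Real.sqrt ((1606 / 100) ^ 3) := by
      rw [Real.sqrt_eq_rpow, ← Real.rpow_natCast, ← Real.rpow_mul (by norm_num)]
      norm_num
    rw [h5]
    refine Real.le_sqrt_of_sq_le ?_
    norm_num
  have h3 : G ^ (1 / 3 : ℝ) * ((7 / 3 + ((62 : ℕ) : ℝ)) ^ (2 / 3 : ℝ) * G ^ (2 / 3 : ℝ))
      = (7 / 3 + ((62 : ℕ) : ℝ)) ^ (2 / 3 : ℝ) * (G ^ (1 / 3 : ℝ) * G ^ (2 / 3 : ℝ)) := by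
    ring
  rw [h3, ← Real.rpow_add hG0]
  have h6 : (1 / 3 + 2 / 3 : ℝ) = 1 := by norm_num
  rw [h6, Real.rpow_one]
  exact mul_le_mul_of_nonneg_right h2 hG0.le

theorem gam_bd : 1186 / 1000 ≤ Real.Gamma (7 / 3) ∧ Real.Gamma (7 / 3) ≤ 1195 / 1000 := by
  have h1 := gam_up
  have h2 := gam_low
  rw [gam_rec, gam_prod] at h1 h2
  have hf : (Nat.factorial 63 : ℕ) = 1982608315404440064116146708361898137544773690227268628106279599612729753600000000000000 := by decide +kernel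
  rw [hf] at h1 h2
  push_cast at h1 h2
  constructor
  · nlinarith
  · nlinarith

theorem st_GAM : ST_GAM := by
  obtain ⟨hl, hu⟩ := gam_bd
  set g := Real.Gamma (7 / 3) with hg
  have h1 : Real.Gamma (7 / 3) = 4 / 3 * (1 / 3) * Real.Gamma (1 / 3) := by
    have e1 : (7 / 3 : ℝ) = 4 / 3 + 1 := by norm_num
    have e2 : (4 / 3 : ℝ) = 1 / 3 + 1 := by norm_num
    rw [e1, Real.Gamma_add_one (by norm_num), e2, Real.Gamma_add_one (by norm_num)]
    ring
  have h2 : Real.Gamma (5 / 3) = 2 / 3 * Real.Gamma (2 / 3) := by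
    have e1 : (5 / 3 : ℝ) = 2 / 3 + 1 := by norm_num
    rw [e1, Real.Gamma_add_one (by norm_num)]
  have h3 : Real.Gamma (4 / 3) = 3 / 4 * g := by
    have e1 : (7 / 3 : ℝ) = 4 / 3 + 1 := by norm_num
    rw [hg, e1, Real.Gamma_add_one (by norm_num)]
    ring
  have h4 : Real.Gamma (8 / 3) = 5 / 3 * Real.Gamma (5 / 3) := by
    have e1 : (8 / 3 : ℝ) = 5 / 3 + 1 := by norm_num
    rw [e1, Real.Gamma_add_one (by norm_num)]
  have h5 : Real.Gamma (1 / 3) * Real.Gamma (2 / 3) = Real.pi / (Real.sqrt 3 / 2) := by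
    have h := Real.Gamma_mul_Gamma_one_sub (1 / 3)
    have e1 : (1 - 1 / 3 : ℝ) = 2 / 3 := by norm_num
    have e2 : Real.pi * (1 / 3) = Real.pi / 3 := by ring
    rw [e1, e2, Real.sin_pi_div_three] at h
    exact h
  have hpi : Real.pi < 3.1416 := Real.pi_lt_d4
  have hs3 : 1.732 < Real.sqrt 3 := by
    rw [Real.lt_sqrt (by norm_num)]
    norm_num
  have h6 : g * Real.Gamma (5 / 3) ≤ 10749 / 10000 := by
    have : g * Real.Gamma (5 / 3) = 8 / 27 * (Real.pi / (Real.sqrt 3 / 2)) := by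
      rw [hg, h1, h2, ← h5]
      ring
    rw [this]
    have h7 : Real.pi / (Real.sqrt 3 / 2) ≤ 3.1416 / (1.732 / 2) :=
      div_le_div₀ (by norm_num) hpi.le (by norm_num) (by linarith)
    refine le_trans (mul_le_mul_of_nonneg_left h7 (by norm_num)) ?_
    norm_num
  have hg0 : 0 < g := by linarith
  refine ⟨by linarith, ?_, ?_⟩
  · rw [h4, div_le_iff₀ (by positivity)]
    have h8 : (1186 / 1000 : ℝ) ^ 3 ≤ g ^ 3 := pow_le_pow_left₀ (by norm_num) hl 3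
    have h9 : 5 / 3 * Real.Gamma (5 / 3) * g ≤ 1075 / 1000 * g ^ 2 * g := by
      have : 5 / 3 * Real.Gamma (5 / 3) * g = 5 / 3 * (g * Real.Gamma (5 / 3)) := by ring
      rw [this]
      nlinarith
    exact le_of_mul_le_mul_right h9 hg0
  · rw [h3]
    have h8 : g ^ 3 ≤ (1195 / 1000 : ℝ) ^ 3 := pow_le_pow_left₀ hg0.le hu 3
    nlinarith

end Pool.Agent.Helper44.GH
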