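import Pool.Agent.Helper44.GH.Stmts
import Pool.Agent.Helper55.GF.GLIM
import Pool.Agent.Helper28.GF.LR

/-!
# Module GLZ: approximation of `Lr` by finite models with small activities (MP_d210aa_gt)
-/

open Finset MeasureTheory Filter Topology

namespace Pool.Agent.Helper44.GH

open Pool.Agent.Helper44.GF Pool.Agent.Helper44.GN

theorem glz_small {ρ ε c : ℝ} (hρ : 1 < ρ) (hε : ε ≤ 1 / 2) (hc : 0 < c) (N : ℕ) (l : ℤ)
    (hl : -(N : ℤ) ≤ l) : glim_z ρ ε c l / (glim_M ρ ε c N : ℝ) ≤ 1 / ((N : ℝ) + 1) := by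
  have hM : (0 : ℝ) < glim_M ρ ε c N := by
    exact_mod_cast (lt_of_lt_of_le Nat.zero_lt_one (glim_M_one ρ ε c N))
  have h1 := glim_z_le hρ hε hc N l hl
  have h2 := glim_M_le ρ ε c N
  have hN : (0 : ℝ) ≤ N := Nat.cast_nonneg N
  rw [div_le_div_iff₀ hM (by linarith), one_mul]
  set B := c * ρ ^ ((1 - ε) * (N : ℝ)) with hB
  have hB0 : 0 ≤ B := le_trans (glim_z_pos hρ hc l).le h1
  have h4 : B ≤ 1 + B ^ 2 := by nlinarith [sq_nonneg (B - 1 / 2)]
  have h5 : B * ((N : ℝ) + 1) ≤ (2 * (N : ℝ) + 1) * ((N : ℝ) + 1) * (1 + B ^ 2) := by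
    have h6 : 0 ≤ (1 + B ^ 2) * ((N : ℝ) + 1) := by positivity
    nlinarith [mul_le_mul_of_nonneg_right h4 (show (0 : ℝ) ≤ (N : ℝ) + 1 by linarith)]
  have h7 : glim_z ρ ε c l * ((N : ℝ) + 1) ≤ B * ((N : ℝ) + 1) :=
    mul_le_mul_of_nonneg_right h1 (by linarith)
  linarith

theorem st_GLZ : ST_GLZ := by
  intro ρ ε c ζ hρ hε hε2 hc hζ
  obtain ⟨hsum, -, hmono, hscale, hpos, -⟩ := st_LR ρ ε c hρ hε (by linarith) hc
  have hsum' : ∀ u, 0 ≤ u → Summable fun l : ℤ => glim_f ρ ε c u l := hsum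
  have h0 : 0 < ρ := by linarith
  have h1 : 1 < ρ ^ (1 - ε) := Real.one_lt_rpow hρ (by linarith)
  set A : ℝ := (ρ ^ (1 - ε))⁻¹ * Lr ρ ε c 1 with hA
  have hA0 : 0 < A := by positivity
  set C0 : ℝ := c / (ρ ^ (1 - ε) - 1) with hC0
  obtain ⟨N0, hN0⟩ := exists_nat_one_div_lt hζ
  refine ⟨fun k => N0 + k, fun k => glim_M ρ ε c (N0 + k), A / 2, C0 / 2 + A / 2, by linarith,
    fun k => glim_M_one ρ ε c (N0 + k), ?_, ?_, ?_, ?_⟩
  · intro k y
    have h2 := glz_small hρ hε2 hc (N0 + k) (((y.1 : ℕ) : ℤ) - ((N0 + k : ℕ) : ℤ)) (by omega)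
    have h3 : (1 : ℝ) / (((N0 + k : ℕ) : ℝ) + 1) ≤ ζ := by
      refine le_trans ?_ hN0.le
      refine one_div_le_one_div_of_le (by positivity) ?_
      push_cast
      have : (0 : ℝ) ≤ k := Nat.cast_nonneg k
      linarith
    refine le_trans (le_of_eq ?_) (le_trans h2 h3)
    unfold gz glim_z
    push_cast
    rfl
  · intro k
    refine glim_cont _ _ _ ?_
    intro y
    unfold gz
    have := Real.rpow_pos_of_pos h0 (-((1 - ε) * (((y.1 : ℕ) : ℝ) - ((N0 + k : ℕ) : ℝ))))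
    positivity
  · intro k u hu
    have h2 := glim_lam_lower hρ hε hε2 hc (N0 + k) hu
    have h3 := glim_P_lower hρ hε hε2 hc (hsum' u hu) (N0 + k)
    have h4 : A * Real.sqrt u - A ≤ Lr ρ ε c u := by
      rcases le_or_gt 1 u with hu1 | hu1
      · have := glim_Lr_growth hρ hε2 hmono hscale hpos hu1
        linarith
      · have h5 : Real.sqrt u ≤ 1 := Real.sqrt_le_one.mpr hu1.le
        have h6 := glim_Lr_nonneg (ε := ε) hρ hc hu
        nlinarith
    linarith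
  · intro u hu
    have h2 : Tendsto (fun N => glim_P ρ ε c N u) atTop (𝓝 (Lr ρ ε c u)) := by
      have h3 := glim_sym_tendsto (hsum' u hu)
      have h4 := (glim_gd_tendsto (c := c) hρ hε).mul_const u
      have h5 := h4.add h3
      rw [zero_mul, zero_add, ← glim_Lr_eq] at h5
      exact h5
    have h6 : Tendsto (fun N : ℕ => 1 / ((N : ℝ) + 1)) atTop (𝓝 0) :=
      tendsto_one_div_add_atTop_nhds_zero_nat
    have h7 : Tendsto (fun N => lam (gd ρ ε c N) (gr ρ N (glim_M ρ ε c N))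
        (gz ρ ε c N (glim_M ρ ε c N)) u - glim_P ρ ε c N u) atTop (𝓝 0) := by
      refine squeeze_zero_norm (fun N => ?_) h6
      rw [Real.norm_eq_abs]
      exact glim_lam_P hρ hε2 hc N hu
    have h8 := h7.add h2
    simp only [sub_add_cancel, zero_add] at h8
    have h9 : Tendsto (fun k : ℕ => N0 + k) atTop atTop :=
      tendsto_atTop_mono (fun k => Nat.le_add_left k N0) tendsto_id
    exact h8.comp h9

end Pool.Agent.Helper44.GH
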